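import Pool.Agent.Helper71.PR.Goals

/-!
# PR: SG, the structure at the minimal rank of a closed semigroup cone of matrices
-/

set_option autoImplicit false

namespace Pool.Agent.Helper93.PR

open Matrix Filter Topology
open Pool.Agent.Helper71.PR

/-- Rank factorization with one-sided inverses. -/
theorem rank_fact {ι : Type} [Fintype ι] [DecidableEq ι] (P : Matrix ι ι ℝ) {ρ : ℕ}
    (h : P.rank = ρ) : ∃ (U : Matrix ι (Fin ρ) ℝ) (V : Matrix (Fin ρ) ι ℝ)
      (U' : Matrix (Fin ρ) ι ℝ) (V' : Matrix ι (Fin ρ) ℝ), U' * U = 1 ∧ V * V' = 1 ∧ U * V = P := by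
  classical
  set f := Matrix.toLin' P with hf
  have hfr : Module.finrank ℝ (LinearMap.range f) = ρ := by
    rw [← h, Matrix.rank]
    rfl
  have hcard : Module.finrank ℝ (LinearMap.range f) = Module.finrank ℝ (Fin ρ → ℝ) := by
    rw [hfr]
    simp
  let e : LinearMap.range f ≃ₗ[ℝ] (Fin ρ → ℝ) := LinearEquiv.ofFinrankEq _ _ hcard
  let v : (ι → ℝ) →ₗ[ℝ] (Fin ρ → ℝ) := e.toLinearMap ∘ₗ f.rangeRestrict
  let u : (Fin ρ → ℝ) →ₗ[ℝ] (ι → ℝ) := (LinearMap.range f).subtype ∘ₗ e.symm.toLinearMap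
  have huv : u ∘ₗ v = f := by
    ext x
    simp [u, v]
  have hu : LinearMap.ker u = ⊥ := by
    rw [LinearMap.ker_eq_bot]
    intro a b hab
    simp only [u, LinearMap.comp_apply] at hab
    exact e.symm.injective (Subtype.val_injective hab)
  have hv : LinearMap.range v = ⊤ := by
    rw [LinearMap.range_eq_top]
    exact e.surjective.comp f.surjective_rangeRestrict
  obtain ⟨u', hu'⟩ := u.exists_leftInverse_of_injective hu
  obtain ⟨v', hv'⟩ := v.exists_rightInverse_of_surjective hv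
  refine ⟨LinearMap.toMatrix' u, LinearMap.toMatrix' v, LinearMap.toMatrix' u',
    LinearMap.toMatrix' v', ?_, ?_, ?_⟩
  · rw [← LinearMap.toMatrix'_comp, hu', LinearMap.toMatrix'_id]
  · rw [← LinearMap.toMatrix'_comp, hv', LinearMap.toMatrix'_id]
  · rw [← LinearMap.toMatrix'_comp, huv, hf, LinearMap.toMatrix'_toLin']

theorem det_ne_of_rank {ρ : ℕ} (B : Mt ρ) (h : ρ ≤ B.rank) : B.det ≠ 0 := by
  have h1 : B.rank = ρ := by
    refine le_antisymm ?_ h
    simpa using B.rank_le_card_width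
  have h2 : LinearMap.range B.mulVecLin = ⊤ := by
    apply Submodule.eq_top_of_finrank_eq
    rw [Matrix.rank] at h1
    rw [h1]
    simp
  have h3 : Function.Surjective B.mulVec := by
    rw [LinearMap.range_eq_top] at h2
    exact h2
  have h4 : IsUnit B := Matrix.mulVec_surjective_iff_isUnit.1 h3
  exact ((Matrix.isUnit_iff_isUnit_det B).1 h4).ne_zero

/-- a closed cone of matrices all nonzero elements of which are invertible: elements of
determinant `± 1` are bounded -/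
theorem bound_of_cone {ρ : ℕ} (C : Set (Mt ρ)) (hC : IsClosed C)
    (hs : ∀ t : ℝ, ∀ A ∈ C, t • A ∈ C) (hd : ∀ A ∈ C, A ≠ 0 → A.det ≠ 0) :
    ∃ R : ℝ, ∀ A ∈ C, |A.det| = 1 → ∀ i j, |A i j| ≤ R := by
  classical
  let _ : NormedAddCommGroup (Mt ρ) := Matrix.normedAddCommGroup
  let _ : NormedSpace ℝ (Mt ρ) := Matrix.normedSpace
  have hdetc : Continuous (fun A : Mt ρ => |A.det|) := (Continuous.matrix_det continuous_id).abs
  have hcomp : IsCompact (C ∩ Metric.sphere (0 : Mt ρ) 1) := by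
    have : ProperSpace (Mt ρ) := FiniteDimensional.proper ℝ (Mt ρ)
    exact (isCompact_sphere (0 : Mt ρ) 1).inter_left hC
  rcases (C ∩ Metric.sphere (0 : Mt ρ) 1).eq_empty_or_nonempty with he | hne
  · refine ⟨0, fun A hA _ i j => ?_⟩
    by_contra hc
    have hA0 : A ≠ 0 := by
      rintro rfl
      simp at hc
    have hn : ‖A‖ ≠ 0 := norm_ne_zero_iff.2 hA0
    have : (‖A‖⁻¹ • A) ∈ C ∩ Metric.sphere (0 : Mt ρ) 1 := by
      refine ⟨hs _ A hA, ?_⟩
      rw [mem_sphere_zero_iff_norm, norm_smul, norm_inv, norm_norm, inv_mul_cancel₀ hn]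
    rw [he] at this
    exact this
  · obtain ⟨B, ⟨hBC, hBs⟩, hmin⟩ := hcomp.exists_isMinOn hne hdetc.continuousOn
    have hBn : ‖B‖ = 1 := by simpa using hBs
    have hB0 : B ≠ 0 := by
      rintro rfl
      simp at hBn
    have hpos : 0 < |B.det| := abs_pos.2 (hd B hBC hB0)
    rcases Nat.eq_zero_or_pos ρ with h0 | hρ
    · subst h0
      exact ⟨0, fun A _ _ i => i.elim0⟩
    refine ⟨max 1 (|B.det|⁻¹), fun A hA hdA i j => ?_⟩
    have hA0 : A ≠ 0 := by
      rintro rfl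
      have : (0 : Mt ρ).det = 0 := by
        have : Nonempty (Fin ρ) := ⟨⟨0, hρ⟩⟩
        exact Matrix.det_zero
      rw [this] at hdA
      simp at hdA
    have hn : 0 < ‖A‖ := norm_pos_iff.2 hA0
    have hmem : (‖A‖⁻¹ • A) ∈ C ∩ Metric.sphere (0 : Mt ρ) 1 := by
      refine ⟨hs _ A hA, ?_⟩
      rw [mem_sphere_zero_iff_norm, norm_smul, norm_inv, norm_norm, inv_mul_cancel₀ hn.ne']
    have h1 : |B.det| ≤ |(‖A‖⁻¹ • A).det| := hmin hmem
    rw [Matrix.det_smul, abs_mul, hdA, mul_one, Fintype.card_fin, abs_pow, abs_inv, abs_norm] at h1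
    have h2 : |A i j| ≤ ‖A‖ := by
      have := Matrix.norm_entry_le_entrywise_sup_norm A (i := i) (j := j)
      simpa [Real.norm_eq_abs] using this
    refine h2.trans ?_
    by_contra hc
    push Not at hc
    have hc1 : 1 < ‖A‖ := lt_of_le_of_lt (le_max_left _ _) hc
    have hc2 : |B.det|⁻¹ < ‖A‖ := lt_of_le_of_lt (le_max_right _ _) hc
    have h3 : (‖A‖⁻¹) ^ ρ ≤ ‖A‖⁻¹ := by
      have h4 : ‖A‖⁻¹ ≤ 1 := inv_le_one_of_one_le₀ hc1.le
      calc (‖A‖⁻¹) ^ ρ ≤ (‖A‖⁻¹) ^ 1 := pow_le_pow_of_le_one (by positivity) h4 hρ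
        _ = ‖A‖⁻¹ := pow_one _
    have h5 : |B.det| ≤ ‖A‖⁻¹ := h1.trans h3
    have h6 : ‖A‖ ≤ |B.det|⁻¹ := by
      rw [le_inv_comm₀ hn hpos]
      exact h5
    linarith

/-- **SG.** -/
theorem sg (h : G_INV) : G_SG := by
  classical
  intro ι _ _ S hScl hSm hSs hSne
  -- the minimal rank
  have hex : ∃ r : ℕ, ∃ A ∈ S, A ≠ 0 ∧ A.rank = r := by
    obtain ⟨A, hA, hA0⟩ := hSne
    exact ⟨_, A, hA, hA0, rfl⟩
  set ρ := Nat.find hex with hρdef
  obtain ⟨P, hP, hP0, hPr⟩ := Nat.find_spec hex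
  rw [← hρdef] at hPr
  have hmin : ∀ A ∈ S, A ≠ 0 → ρ ≤ A.rank := fun A hA hA0 => Nat.find_min' hex ⟨A, hA, hA0, rfl⟩
  have hρ : 0 < ρ := by
    rcases Nat.eq_zero_or_pos ρ with h0 | h0
    · exfalso
      rw [h0] at hPr
      apply hP0
      rw [Matrix.rank, Submodule.finrank_eq_zero, LinearMap.range_eq_bot] at hPr
      exact Matrix.toLin'.injective (by simpa [Matrix.toLin'_apply'] using hPr)
    · exact h0
  obtain ⟨U, V, U', V', hU, hV, hUV⟩ := rank_fact P hPr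
  -- the cone
  set C : Set (Mt ρ) := {B | U * B * V ∈ S} with hC
  have hCcl : IsClosed C := by
    have hc : Continuous (fun B : Mt ρ => U * B * V) := by fun_prop
    exact hScl.preimage hc
  have hCs : ∀ t : ℝ, ∀ A ∈ C, t • A ∈ C := by
    intro t A hA
    change U * (t • A) * V ∈ S
    rw [Matrix.mul_smul, Matrix.smul_mul]
    exact hSs t _ hA
  have hCd : ∀ A ∈ C, A ≠ 0 → A.det ≠ 0 := by
    intro A hA hA0
    have h1 : U' * (U * A * V) * V' = A := by
      calc U' * (U * A * V) * V' = (U' * U) * A * (V * V') := by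
            simp only [Matrix.mul_assoc]
        _ = A := by rw [hU, hV, Matrix.one_mul, Matrix.mul_one]
    have h2 : U * A * V ≠ 0 := by
      intro h0
      rw [h0] at h1
      apply hA0
      rw [← h1]
      simp
    have h3 := hmin _ hA h2
    refine det_ne_of_rank A (h3.trans ?_)
    refine (Matrix.rank_mul_le_left (U * A) V).trans ?_
    exact Matrix.rank_mul_le_right U A
  -- the compressions
  set T : Set (Mt ρ) := {B | ∃ g ∈ S, B = V * g * U} with hT
  have hTC : ∀ B ∈ T, B ∈ C := by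
    rintro B ⟨g, hg, rfl⟩
    change U * (V * g * U) * V ∈ S
    have : U * (V * g * U) * V = P * g * P := by
      rw [← hUV]
      simp only [Matrix.mul_assoc]
    rw [this]
    exact hSm _ (hSm _ hP _ hg) _ hP
  have hTs : ∀ t : ℝ, ∀ A ∈ T, t • A ∈ T := by
    rintro t A ⟨g, hg, rfl⟩
    exact ⟨t • g, hSs t g hg, by rw [Matrix.mul_smul, Matrix.smul_mul]⟩
  have hTm : ∀ A ∈ T, ∀ B ∈ T, A * B ∈ T := by
    rintro A ⟨g, hg, rfl⟩ B ⟨g', hg', rfl⟩
    refine ⟨g * P * g', hSm _ (hSm _ hg _ hP) _ hg', ?_⟩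
    rw [← hUV]
    simp only [Matrix.mul_assoc]
  by_cases hall : ∀ g ∈ S, V * g * U = 0
  · refine ⟨ρ, U, V, U', V', 1, hρ, hU, hV, by rw [hUV]; exact hP, Matrix.PosDef.one, ?_⟩
    intro g hg
    refine ⟨0, ?_⟩
    rw [hall g hg]
    simp
  push Not at hall
  obtain ⟨g0, hg0, hg0'⟩ := hall
  -- normalization
  have hnorm : ∀ B ∈ T, B ≠ 0 → ∃ s : ℝ, ∃ A ∈ T, |A.det| = 1 ∧ B = s • A := by
    intro B hB hB0
    have hd : 0 < |B.det| := abs_pos.2 (hCd B (hTC B hB) hB0)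
    set s : ℝ := |B.det| ^ ((ρ : ℝ)⁻¹) with hs
    have hspos : 0 < s := Real.rpow_pos_of_pos hd _
    have hsp : s ^ ρ = |B.det| := by
      rw [hs]
      exact Real.rpow_inv_natCast_pow hd.le hρ.ne'
    refine ⟨s, s⁻¹ • B, hTs _ B hB, ?_, ?_⟩
    · rw [Matrix.det_smul, Fintype.card_fin, abs_mul, abs_pow, abs_inv, abs_of_pos hspos, inv_pow,
        hsp]
      exact inv_mul_cancel₀ hd.ne'
    · rw [smul_smul, mul_inv_cancel₀ hspos.ne', one_smul]
  set K0 : Set (Mt ρ) := {B | B ∈ T ∧ |B.det| = 1} with hK0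
  have hK0ne : K0.Nonempty := by
    obtain ⟨s, A, hA, hd, -⟩ := hnorm _ ⟨g0, hg0, rfl⟩ hg0'
    exact ⟨A, hA, hd⟩
  have hK0m : ∀ A ∈ K0, ∀ B ∈ K0, A * B ∈ K0 := by
    rintro A ⟨hA, hA1⟩ B ⟨hB, hB1⟩
    exact ⟨hTm A hA B hB, by rw [Matrix.det_mul, abs_mul, hA1, hB1, one_mul]⟩
  have hKC : closure K0 ⊆ C := hCcl.closure_subset_iff.2 fun B hB => hTC B hB.1
  have hKd : closure K0 ⊆ {B : Mt ρ | |B.det| = 1} := by
    have hdetc : Continuous (fun A : Mt ρ => |A.det|) := (Continuous.matrix_det continuous_id).abs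
    exact (isClosed_eq hdetc continuous_const).closure_subset_iff.2 fun B hB => hB.2
  have hKm : ∀ A ∈ closure K0, ∀ B ∈ closure K0, A * B ∈ closure K0 := by
    intro A hA B hB
    have hc : Continuous (Function.uncurry fun (A B : Mt ρ) => A * B) := by
      unfold Function.uncurry
      fun_prop
    exact map_mem_closure₂ hc hA hB hK0m
  obtain ⟨R, hR⟩ := bound_of_cone C hCcl hCs hCd
  have hKcomp : IsCompact (closure K0) := by
    have hb : closure K0 ⊆ Set.pi Set.univ fun i : Fin ρ => Set.pi Set.univ fun j : Fin ρ =>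
        Set.Icc (-R) R := by
      intro A hA i _ j _
      exact abs_le.1 (hR A (hKC hA) (hKd hA) i j)
    exact IsCompact.of_isClosed_subset
      (isCompact_univ_pi fun _ => isCompact_univ_pi fun _ => isCompact_Icc) isClosed_closure hb
  obtain ⟨Q, hQ, hQK⟩ := h ρ (closure K0) hKcomp hK0ne.closure hKm fun A hA => hKd hA
  refine ⟨ρ, U, V, U', V', Q, hρ, hU, hV, by rw [hUV]; exact hP, hQ, ?_⟩
  intro g hg
  by_cases hg1 : V * g * U = 0
  · refine ⟨0, ?_⟩
    rw [hg1]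
    simp
  · obtain ⟨s, A, hA, hd, hAe⟩ := hnorm _ ⟨g, hg, rfl⟩ hg1
    refine ⟨s * s, ?_⟩
    have hq := hQK A (subset_closure ⟨hA, hd⟩)
    rw [hAe, Matrix.transpose_smul, Matrix.smul_mul, Matrix.smul_mul, Matrix.mul_smul, hq,
      smul_smul]

end Pool.Agent.Helper93.PR
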